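import Pool.Agent.Lib.MP_97284c_gt.Q.Fin
import Pool.Agent.Lib.MP_97284c_gt.P.A1
import Pool.Agent.Lib.MP_97284c_gt.P.A10
import Pool.Agent.Lib.MP_97284c_gt.P.A2
import Pool.Agent.Lib.MP_97284c_gt.P.A3
import Pool.Agent.Lib.MP_97284c_gt.P.A4
import Pool.Agent.Lib.MP_97284c_gt.P.A4b
import Pool.Agent.Lib.MP_97284c_gt.P.A4c
import Pool.Agent.Lib.MP_97284c_gt.P.A5
import Pool.Agent.Lib.MP_97284c_gt.P.A5a
import Pool.Agent.Lib.MP_97284c_gt.P.A5b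
import Pool.Agent.Lib.MP_97284c_gt.P.A6
import Pool.Agent.Lib.MP_97284c_gt.P.A7
import Pool.Agent.Lib.MP_97284c_gt.P.A8
import Pool.Agent.Lib.MP_97284c_gt.P.A9
import Pool.Agent.Lib.MP_97284c_gt.P.Apos
import Pool.Agent.Lib.MP_97284c_gt.P.C0
import Pool.Agent.Lib.MP_97284c_gt.P.C1
import Pool.Agent.Lib.MP_97284c_gt.P.C2
import Pool.Agent.Lib.MP_97284c_gt.P.C3
import Pool.Agent.Lib.MP_97284c_gt.P.C3b
import Pool.Agent.Lib.MP_97284c_gt.P.C4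
import Pool.Agent.Lib.MP_97284c_gt.P.C5
import Pool.Agent.Lib.MP_97284c_gt.P.C5a
import Pool.Agent.Lib.MP_97284c_gt.P.C5b
import Pool.Agent.Lib.MP_97284c_gt.P.C6
import Pool.Agent.Lib.MP_97284c_gt.P.F0
import Pool.Agent.Lib.MP_97284c_gt.P.F1
import Pool.Agent.Lib.MP_97284c_gt.P.F10
import Pool.Agent.Lib.MP_97284c_gt.P.F11
import Pool.Agent.Lib.MP_97284c_gt.P.F2
import Pool.Agent.Lib.MP_97284c_gt.P.F3
import Pool.Agent.Lib.MP_97284c_gt.P.F4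
import Pool.Agent.Lib.MP_97284c_gt.P.F5
import Pool.Agent.Lib.MP_97284c_gt.P.F6
import Pool.Agent.Lib.MP_97284c_gt.P.F7
import Pool.Agent.Lib.MP_97284c_gt.P.F8
import Pool.Agent.Lib.MP_97284c_gt.P.FL
import Pool.Agent.Lib.MP_97284c_gt.P.N1
import Pool.Agent.Lib.MP_97284c_gt.P.N2
import Pool.Agent.Lib.MP_97284c_gt.P.N3
import Pool.Agent.Lib.MP_97284c_gt.P.N4
import Pool.Agent.Lib.MP_97284c_gt.P.N5
import Pool.Agent.Lib.MP_97284c_gt.P.P0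
import Pool.Agent.Lib.MP_97284c_gt.P.P1
import Pool.Agent.Lib.MP_97284c_gt.P.P2
import Pool.Agent.Lib.MP_97284c_gt.P.R
import Pool.Agent.Lib.MP_97284c_gt.P.R1
import Pool.Agent.Lib.MP_97284c_gt.P.R2
import Pool.Agent.Lib.MP_97284c_gt.P.S10
import Pool.Agent.Lib.MP_97284c_gt.P.S11
import Pool.Agent.Lib.MP_97284c_gt.P.S1a
import Pool.Agent.Lib.MP_97284c_gt.P.S1b
import Pool.Agent.Lib.MP_97284c_gt.P.S1c
import Pool.Agent.Lib.MP_97284c_gt.P.S3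
import Pool.Agent.Lib.MP_97284c_gt.P.S4
import Pool.Agent.Lib.MP_97284c_gt.P.S5
import Pool.Agent.Lib.MP_97284c_gt.P.S6
import Pool.Agent.Lib.MP_97284c_gt.P.S7
import Pool.Agent.Lib.MP_97284c_gt.P.S8
import Pool.Agent.Lib.MP_97284c_gt.P.S8a
import Pool.Agent.Lib.MP_97284c_gt.P.S9
import Pool.Agent.Lib.MP_97284c_gt.P.S9a
import Pool.Agent.Lib.MP_97284c_gt.P.SP
import Pool.Agent.Lib.MP_97284c_gt.P.T1
import Pool.Agent.Lib.MP_97284c_gt.P.T2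
import Pool.Agent.Lib.MP_97284c_gt.P.T2b
import Pool.Agent.Lib.MP_97284c_gt.P.T3
import Pool.Agent.Lib.MP_97284c_gt.P.T4
import Pool.Agent.Lib.MP_97284c_gt.P.T5
import Pool.Agent.Lib.MP_97284c_gt.P.T5b
import Pool.Agent.Lib.MP_97284c_gt.P.T6
import Pool.Agent.Lib.MP_97284c_gt.P.T7
import Pool.Agent.Lib.MP_97284c_gt.P.T8
import Pool.Agent.Lib.MP_97284c_gt.P.U1
import Pool.Agent.Lib.MP_97284c_gt.P.U2
import Pool.Agent.Lib.MP_97284c_gt.P.U3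
import Pool.Agent.Lib.MP_97284c_gt.P.U4
import Pool.Agent.Lib.MP_97284c_gt.P.U5
import Pool.Agent.Lib.MP_97284c_gt.P.U6
import Pool.Agent.Lib.MP_97284c_gt.P.U7
import Pool.Agent.Lib.MP_97284c_gt.P.U8
import Pool.Agent.Lib.MP_97284c_gt.P.UPs

/-!
# MP_97284c_gt: assembly of the pieces
-/

namespace Pool.Agent.Lib.MP_97284c_gt

theorem h_A1 : S_A1 := p_A1
theorem h_A2 : S_A2 := p_A2
theorem h_A3 : S_A3 := p_A3
theorem h_A4 : S_A4 := p_A4 h_A1 h_A2 h_A3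
theorem h_A4b : S_A4b := p_A4b
theorem h_A4c : S_A4c := p_A4c h_A4 h_A4b
theorem h_A5a : S_A5a := p_A5a
theorem h_A5b : S_A5b := p_A5b
theorem h_A5 : S_A5 := p_A5 h_A5a h_A5b
theorem h_A6 : S_A6 := p_A6 h_A1 h_A2 h_A5
theorem h_A7 : S_A7 := p_A7 h_A4 h_A5
theorem h_Apos : S_Apos := p_Apos h_A1 h_A7
theorem h_A8 : S_A8 := p_A8 h_A6 h_A7 h_Apos
theorem h_A10 : S_A10 := p_A10 h_A4c h_A8
theorem h_A9 : S_A9 := p_A9 h_A4 h_A4b h_A4c h_A5 h_A7 h_A10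
theorem h_C0 : S_C0 := p_C0
theorem h_C1 : S_C1 := p_C1 h_C0
theorem h_C2 : S_C2 := p_C2 h_C1
theorem h_C3 : S_C3 := p_C3 h_C1
theorem h_P0 : S_P0 := p_P0
theorem h_P1 : S_P1 := p_P1 h_P0
theorem h_P2 : S_P2 := p_P2
theorem h_UPs : S_UPs := p_UPs
theorem h_C4 : S_C4 := p_C4 h_P1 h_P2 h_UPs
theorem h_C3b : S_C3b := p_C3b h_C1 h_C4 h_UPs
theorem h_C5a : S_C5a := p_C5a h_P1
theorem h_C5b : S_C5b := p_C5b h_C5a h_A9 h_A10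
theorem h_C5 : S_C5 := p_C5 h_A9 h_C5b h_C2 h_UPs
theorem h_C6 : S_C6 := p_C6 h_UPs h_C2
theorem h_F0 : S_F0 := p_F0
theorem h_FL : S_FL := p_FL
theorem h_F1 : S_F1 := p_F1 h_F0 h_FL
theorem h_F10 : S_F10 := p_F10 h_F0
theorem h_F2 : S_F2 := p_F2 h_F0 h_FL
theorem h_F3 : S_F3 := p_F3 h_F2
theorem h_F4 : S_F4 := p_F4 h_F0 h_F1 h_F2 h_F3
theorem h_F5 : S_F5 := p_F5
theorem h_F6 : S_F6 := p_F6
theorem h_F7 : S_F7 := p_F7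
theorem h_F8 : S_F8 := p_F8
theorem h_F11 : S_F11 := p_F11 h_F0 h_F4 h_F5 h_F6 h_F7 h_F8 h_F10
theorem h_N1 : S_N1 := p_N1
theorem h_N2 : S_N2 := p_N2
theorem h_N3 : S_N3 := p_N3
theorem h_N4 : S_N4 := p_N4 h_P1 h_N2 h_N3
theorem h_N5 : S_N5 := p_N5 h_N1 h_N2 h_N3 h_N4
theorem h_R1 : S_R1 := p_R1
theorem h_R2 : S_R2 := p_R2
theorem h_R : S_R := p_R h_A1 h_A2 h_A4 h_R1 h_R2 h_A7
theorem h_S10 : S_S10 := p_S10
theorem h_S3 : S_S3 := p_S3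
theorem h_S4 : S_S4 := p_S4
theorem h_S5 : S_S5 := p_S5 h_S3 h_S4
theorem h_S6 : S_S6 := p_S6
theorem h_S7 : S_S7 := p_S7 h_S5 h_S6
theorem h_S8a : S_S8a := p_S8a
theorem h_S8 : S_S8 := p_S8 h_S8a
theorem h_S9a : S_S9a := p_S9a
theorem h_S9 : S_S9 := p_S9 h_S9a
theorem h_SP : S_SP := p_SP
theorem h_S11 : S_S11 := p_S11 h_S7 h_S8 h_S9 h_S10 h_SP h_R
theorem h_S1a : S_S1a := p_S1a h_C2 h_C3 h_UPs
theorem h_S1b : S_S1b := p_S1b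
theorem h_S1c : S_S1c := p_S1c h_S1b
theorem h_T1 : S_T1 := p_T1 h_C2 h_C3 h_C3b h_UPs
theorem h_T2 : S_T2 := p_T2
theorem h_T2b : S_T2b := p_T2b
theorem h_T3 : S_T3 := p_T3
theorem h_T4 : S_T4 := p_T4
theorem h_T5 : S_T5 := p_T5
theorem h_T5b : S_T5b := p_T5b
theorem h_T6 : S_T6 := p_T6 h_P1 h_P2
theorem h_T7 : S_T7 := p_T7 h_P0 h_T2 h_T2b h_T3 h_T4 h_T5 h_T5b h_T6
theorem h_T8 : S_T8 := p_T8 h_C5 h_C6 h_UPs h_T1 h_T7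
theorem h_U1 : S_U1 := p_U1
theorem h_U2 : S_U2 := p_U2 h_U1
theorem h_U3 : S_U3 := p_U3
theorem h_U4 : S_U4 := p_U4 h_U1 h_U2 h_U3
theorem h_U5 : S_U5 := p_U5
theorem h_U6 : S_U6 := p_U6 h_U4 h_U5
theorem h_U7 : S_U7 := p_U7
theorem h_U8 : S_U8 := p_U8

theorem h_Main : S_Main := by
  intro m hm
  obtain ⟨y, hO, hocc⟩ := h_T8 (2 * m) (by omega)
  have hsh := (h_A9 (2 * m) (by omega)).2 y hO
  obtain ⟨I, J', e, hst⟩ := h_S1a (2 * m) y (by omega) hO hocc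
  obtain ⟨β, hang⟩ := h_S1c (2 * m) y I J' e (by omega) hO.1 hO.2.1 hO.2.2.1 hst
  obtain ⟨hcard, hβ, hβ2⟩ := h_S11 (2 * m) y I J' e β (even_two_mul m) (by omega) hO.1 hst hang hsh
  obtain ⟨W, p, α, bm, bp, hSD, hSt⟩ := h_N5 (2 * m) m y I J' e β rfl hm hO hst hang hcard hβ hβ2
  obtain ⟨ρ, J, hSol, hval⟩ := h_F11 (2 * m - 1) W p α bm bp (by omega) hSD
  have hN : 1 ≤ 2 * m - 1 := by omega
  have hV : smallArea (2 * m) = Val (2 * m - 1) ρ J := by rw [← hsh, ← hSt, hval]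
  have hSf : Sf (2 * m - 1) ρ J = Val (2 * m - 1) ρ J := h_U7 _ ρ J hN hSol
  have huniq : ∀ ρ' J', Sol (2 * m - 1) ρ' J' → ρ' = ρ ∧ J' = J := by
    intro ρ' J' h'
    have h1 := h_U6 (2 * m - 1) ρ ρ' J J' hN hSol h'.toAdm
    have h2 := h_U6 (2 * m - 1) ρ' ρ J' J hN h' hSol.toAdm
    exact h1.2 (le_antisymm h2.1 h1.1)
  refine ⟨ρ, J, hSol, huniq, ?_, hV, hV.trans hSf.symm, ?_⟩
  · intro k
    have h1 := (huniq _ _ (h_U8 _ ρ J hSol)).1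
    exact congrFun h1 k
  · intro ρ' J' hA
    obtain ⟨h1, h2⟩ := h_U6 (2 * m - 1) ρ ρ' J J' hN hSol hA
    rw [hV, ← hSf]
    exact ⟨h1, fun h => h2 h.symm⟩

theorem h_Inp : Inp where
  P0 := h_P0
  P1 := h_P1
  P2 := h_P2
  C1 := h_C1
  C3 := h_C3
  C3b := h_C3b
  C4 := h_C4
  UPs := h_UPs
  T1 := h_T1
  T7 := h_T7
  A9 := h_A9
  S1a := h_S1a
  S1c := h_S1c
  S11 := h_S11
  N1 := h_N1
  N2 := h_N2
  N4 := h_N4
  F0 := h_F0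
  F4 := h_F4
  F5 := h_F5
  F6 := h_F6
  F7 := h_F7
  F8 := h_F8

end Pool.Agent.Lib.MP_97284c_gt
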