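import Pool.Agent.Lib.MP_97284c_gt.Basic
import Pool.Agent.Lib.MP_97284c_gt.G.Max
import Pool.Agent.Lib.MP_97284c_gt.P.Inside

/-!
# MP_97284c_gt, part Q: from `Fin n → ℂ` to periodic sequences and back
-/

namespace Pool.Agent.Lib.MP_97284c_gt

open MeasureTheory

theorem orient_ori (a b c : ℂ) : orient a b c = MP97284cP.ori a b c := by
  unfold orient cr MP97284cP.ori; simp

theorem cr_cr (a b : ℂ) : cr a b = MP97284cP.cr a b := rfl

/-- the residue of an integer, as an element of `Fin n` -/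
def fz (n : ℕ) [NeZero n] (j : ℤ) : Fin n :=
  ⟨(j % n).toNat, by
    have hn : (0 : ℤ) < n := by exact_mod_cast Nat.pos_of_ne_zero (NeZero.ne n)
    have h1 := Int.emod_nonneg j hn.ne'
    have h2 := Int.emod_lt_of_pos j hn
    omega⟩

section
variable {n : ℕ} [NeZero n]

theorem npos : (0 : ℤ) < n := by exact_mod_cast Nat.pos_of_ne_zero (NeZero.ne n)

theorem fz_val (j : ℤ) : ((fz n j).val : ℤ) = j % n := by
  unfold fz
  simp only
  exact Int.toNat_of_nonneg (Int.emod_nonneg j npos.ne')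

theorem fz_eq_iff (j k : ℤ) : fz n j = fz n k ↔ (n : ℤ) ∣ j - k := by
  rw [Fin.ext_iff]
  have h1 := fz_val (n := n) j
  have h2 := fz_val (n := n) k
  have : (fz n j).val = (fz n k).val ↔ j % (n : ℤ) = k % n := by
    rw [← h1, ← h2]; exact_mod_cast Iff.rfl
  rw [this]
  constructor
  · intro h; exact Int.dvd_of_emod_eq_zero (Int.emod_eq_emod_iff_emod_sub_eq_zero.1 h)
  · intro h; exact Int.emod_eq_emod_iff_emod_sub_eq_zero.2 (Int.emod_eq_zero_of_dvd h)

theorem fz_add_n (j : ℤ) : fz n (j + n) = fz n j := by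
  rw [fz_eq_iff]; simp

theorem fz_add_mul (j t : ℤ) : fz n (j + t * n) = fz n j := by
  rw [fz_eq_iff]; simp

theorem fz_self (i : Fin n) : fz n (i.val : ℤ) = i := by
  apply Fin.ext
  have h1 := fz_val (n := n) (i.val : ℤ)
  have h2 : ((i.val : ℤ)) % n = i.val := Int.emod_eq_of_lt (by positivity) (by exact_mod_cast i.isLt)
  rw [h2] at h1
  exact_mod_cast h1

theorem fz_add_one (j : ℤ) : fz n (j + 1) = fz n j + 1 := by
  apply Fin.ext
  have hn := npos (n := n)
  have h1 := fz_val (n := n) (j + 1)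
  have h2 := fz_val (n := n) j
  have h3 : (fz n j + 1).val = ((fz n j).val + 1) % n := by
    rw [Fin.val_add, Fin.val_one', Nat.add_mod_mod]
  rw [h3]
  zify
  rw [h1, h2, Int.emod_add_emod]

theorem fz_lt {j k : ℤ} (h0 : 0 ≤ j) (hjk : j < k) (hk : k < n) : fz n j < fz n k := by
  rw [Fin.lt_def]
  have h1 := fz_val (n := n) j
  have h2 := fz_val (n := n) k
  rw [Int.emod_eq_of_lt h0 (hjk.trans hk)] at h1
  rw [Int.emod_eq_of_lt (h0.trans hjk.le) hk] at h2
  omega

end

/-- periodic extension of a strictly convex polygon -/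
theorem cvx_of_ccw {n : ℕ} [NeZero n] {w : Fin n → ℂ} (h : MP97284cP.Ccw w) :
    Cvx n (fun k => w (fz n k)) := by
  intro i j k hij hjk hkn
  simp only [orient_ori]
  have hn := npos (n := n)
  -- shift so that `0 ≤ i < n`
  obtain ⟨i₁, t, hi0, hin, hit⟩ : ∃ i₁ t : ℤ, 0 ≤ i₁ ∧ i₁ < n ∧ i = i₁ + t * n := by
    refine ⟨i % n, i / n, Int.emod_nonneg i hn.ne', Int.emod_lt_of_pos i hn, ?_⟩
    have := Int.emod_add_mul_ediv i n
    linarith [mul_comm (n : ℤ) (i / n)]
  have ei : fz n i = fz n i₁ := by rw [hit, fz_add_mul]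
  rcases lt_or_ge (k - t * n) n with hk | hk
  · have ej : fz n j = fz n (j - t * n) := by
      rw [fz_eq_iff]; exact ⟨t, by ring⟩
    have ek : fz n k = fz n (k - t * n) := by
      rw [fz_eq_iff]; exact ⟨t, by ring⟩
    rw [ei, ej, ek]
    exact h _ _ _ (fz_lt hi0 (by omega) (by omega)) (fz_lt (by omega) (by omega) hk)
  · rcases lt_or_ge (j - t * n) n with hj | hj
    · have ej : fz n j = fz n (j - t * n) := by
        rw [fz_eq_iff]; exact ⟨t, by ring⟩
      have ek : fz n k = fz n (k - t * n - n) := by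
        rw [fz_eq_iff]; exact ⟨t + 1, by ring⟩
      rw [ei, ej, ek, ← MP97284cP.ori_cyc]
      exact h _ _ _ (fz_lt (by omega) (by omega) (by omega)) (fz_lt hi0 (by omega) hj)
    · have ej : fz n j = fz n (j - t * n - n) := by
        rw [fz_eq_iff]; exact ⟨t + 1, by ring⟩
      have ek : fz n k = fz n (k - t * n - n) := by
        rw [fz_eq_iff]; exact ⟨t + 1, by ring⟩
      rw [ei, ej, ek, MP97284cP.ori_cyc]
      exact h _ _ _ (fz_lt (by omega) (by omega) (by omega)) (fz_lt (by omega) (by omega) hin)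

theorem ccw_of_cvx {n : ℕ} {y : ℤ → ℂ} (h : Cvx n y) :
    MP97284cP.Ccw (fun i : Fin n => y i.val) := by
  intro i j k hij hjk
  rw [← orient_ori]
  apply h
  · exact_mod_cast hij
  · exact_mod_cast hjk
  · have := k.isLt
    have : (k.val : ℤ) < n := by exact_mod_cast this
    omega

theorem per_fz {n : ℕ} [NeZero n] (w : Fin n → ℂ) : Per n (fun k => w (fz n k)) := by
  intro k
  simp only [fz_add_n]

theorem small_fz {n : ℕ} [NeZero n] {w : Fin n → ℂ} (h : MP97284cP.Small w) :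
    Small (fun k => w (fz n k)) := fun _ _ => h _ _

theorem sh_fz {n : ℕ} [NeZero n] (w : Fin n → ℂ) : sh n (fun k => w (fz n k)) = MP97284cP.sh w := by
  unfold sh MP97284cP.sh
  congr 1
  rw [← Fin.sum_univ_eq_sum_range (fun j : ℕ => cr (w (fz n (j : ℤ))) (w (fz n ((j : ℤ) + 1)))) n]
  apply Finset.sum_congr rfl
  intro i _
  rw [fz_add_one, fz_self]
  rfl

theorem sh_fin {n : ℕ} [NeZero n] {y : ℤ → ℂ} (hper : Per n y) :
    MP97284cP.sh (fun i : Fin n => y i.val) = sh n y := by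
  have h := sh_fz (fun i : Fin n => y i.val)
  rw [← h]
  congr 1
  funext k
  show y ((fz n k).val : ℤ) = y k
  rw [fz_val]
  exact per_emod y hper k

/-- the maximal area -/
theorem exists_max' {n : ℕ} [NeZero n] (hn : 3 ≤ n) :
    ∃ v : Fin n → ℂ, MP97284cP.Ccw v ∧ Function.Injective v ∧ MP97284cP.Small v ∧
      0 < MP97284cP.sh v ∧
      (∀ u : Fin n → ℂ, MP97284cP.Small u →
        volume (convexHull ℝ (Set.range u)) ≤ ENNReal.ofReal (MP97284cP.sh v)) ∧
      (∀ u : Fin n → ℂ, MP97284cP.Small u →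
        volume (convexHull ℝ (Set.range u)) = ENNReal.ofReal (MP97284cP.sh v) →
        ∃ σ : Equiv.Perm (Fin n), MP97284cP.Ccw (u ∘ σ)) := by
  obtain ⟨l, rfl⟩ : ∃ l, n = l + 1 := ⟨n - 1, by omega⟩
  exact MP97284cP.exists_max (by omega)

theorem smallArea_eq {n : ℕ} [NeZero n] {v : Fin n → ℂ} (hn : 3 ≤ n)
    (hv : MP97284cP.Ccw v) (hs : MP97284cP.Small v)
    (hmax : ∀ u : Fin n → ℂ, MP97284cP.Small u →
        volume (convexHull ℝ (Set.range u)) ≤ ENNReal.ofReal (MP97284cP.sh v)) :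
    smallArea n = MP97284cP.sh v := by
  have h0 : 0 ≤ MP97284cP.sh v := MP97284cP.Ccw.sh_nonneg hv.weak
  unfold smallArea
  apply le_antisymm
  · apply csSup_le
    · exact ⟨_, v, fun i j => by rw [dist_eq_norm]; exact hs i j, rfl⟩
    · rintro A ⟨u, hu, rfl⟩
      have h1 := hmax u (fun i j => by rw [← dist_eq_norm]; exact hu i j)
      exact ENNReal.toReal_le_of_le_ofReal h0 h1
  · apply le_csSup
    · refine ⟨MP97284cP.sh v, ?_⟩
      rintro A ⟨u, hu, rfl⟩
      have h1 := hmax u (fun i j => by rw [← dist_eq_norm]; exact hu i j)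
      exact ENNReal.toReal_le_of_le_ofReal h0 h1
    · refine ⟨v, fun i j => by rw [dist_eq_norm]; exact hs i j, ?_⟩
      unfold hArea
      rw [hv.volume_hull hn, ENNReal.toReal_ofReal h0]

end Pool.Agent.Lib.MP_97284c_gt
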