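import Pool.Agent.Lib.MP_97284c_gt.Q.Order
import Pool.Agent.Lib.MP_97284c_gt.K.Struct

/-!
# MP_97284c_gt, part Q: the final theorem for simple polygons, from the pieces
-/

namespace Pool.Agent.Lib.MP_97284c_gt

open MeasureTheory ComplexConjugate

/-- A small simple `n`-gon: a simple closed polygon with all distances of vertices at most one. -/
structure SmallSimple {n : ℕ} [NeZero n] (v : Fin n → ℂ) : Prop where
  simple : MP97284cP.IsSimplePolygon v
  small : ∀ i j, dist (v i) (v j) ≤ 1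

/-- The area enclosed by a closed polygon. -/
noncomputable def parea {n : ℕ} [NeZero n] (v : Fin n → ℂ) : ℝ :=
  (volume (MP97284cP.inside v)).toReal

/-- The areas of all small simple `n`-gons; `A_n` is the supremum of this set. -/
def areas (n : ℕ) [NeZero n] : Set ℝ := {A | ∃ v : Fin n → ℂ, SmallSimple v ∧ A = parea v}

theorem wt_neg (N : ℕ) (k : ℤ) : wt N (-k) = wt N k := by
  unfold wt
  simp only [dvd_neg]

theorem orient_sim (u t a b c : ℂ) (hu : ‖u‖ = 1) :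
    orient ((a - t) / u) ((b - t) / u) ((c - t) / u) = orient a b c := by
  have hu0 : u ≠ 0 := by rintro rfl; simp at hu
  have h1 : Complex.normSq u = 1 := by rw [Complex.normSq_eq_norm_sq, hu]; norm_num
  have h2 : u⁻¹ = conj u := by rw [Complex.inv_def, h1]; simp
  simp only [div_eq_mul_inv, h2]
  have h3 : u.re * u.re + u.im * u.im = 1 := by rw [← Complex.normSq_apply]; exact h1
  unfold orient cr
  simp only [Complex.sub_re, Complex.sub_im, Complex.mul_re, Complex.mul_im, Complex.conj_re,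
    Complex.conj_im]
  linear_combination ((b.re - a.re) * (c.im - a.im) - (b.im - a.im) * (c.re - a.re)) * h3

theorem StarAt.norm {m : ℕ} {y : ℤ → ℂ} {i₀ : ℤ} {α : ℤ → ℝ} {bm bp : ℝ}
    (h : StarAt m y i₀ α bm bp) : ‖y (i₀ + m) - y i₀‖ = 1 := by
  have := h.unitp
  rwa [idx_zero] at this

theorem nrm_sub (m : ℕ) (y : ℤ → ℂ) (i₀ a b : ℤ) :
    nrm m y i₀ a - nrm m y i₀ b = (y (i₀ + a) - y (i₀ + b)) / (y (i₀ + m) - y i₀) := by
  unfold nrm; ring

theorem nrm_cvx {m : ℕ} {y : ℤ → ℂ} {i₀ : ℤ} {α : ℤ → ℝ} {bm bp : ℝ}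
    (h : StarAt m y i₀ α bm bp) (hc : Cvx (2 * m) y) : Cvx (2 * m) (nrm m y i₀) := by
  intro i j k hij hjk hk
  unfold nrm
  rw [orient_sim _ _ _ _ _ h.norm]
  exact hc _ _ _ (by omega) (by omega) (by omega)

theorem nrm_small {m : ℕ} {y : ℤ → ℂ} {i₀ : ℤ} {α : ℤ → ℝ} {bm bp : ℝ}
    (h : StarAt m y i₀ α bm bp) (hs : Small y) : Small (nrm m y i₀) := by
  intro i j
  rw [nrm_sub, norm_div, h.norm, div_one]
  exact hs _ _

theorem sh_shift {n : ℕ} {y : ℤ → ℂ} (hper : Per n y) (i₀ : ℤ) :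
    sh n (fun k => y (i₀ + k)) = sh n y := by
  unfold sh
  congr 1
  have h := psum_shift (fun k => cr (y k) (y (k + 1))) (N := n) (fun k => by
    show cr (y (k + n)) (y (k + n + 1)) = _
    have e : k + (n : ℤ) + 1 = (k + 1) + n := by ring
    rw [e, hper k, hper (k + 1)]) i₀
  rw [← h]
  apply Finset.sum_congr rfl
  intro k _
  have e1 : i₀ + (k : ℤ) = k + i₀ := by ring
  have e2 : i₀ + ((k : ℤ) + 1) = k + i₀ + 1 := by ring
  show cr (y (i₀ + (k : ℤ))) (y (i₀ + ((k : ℤ) + 1))) = _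
  rw [e1, e2]

theorem nrm_sh {m : ℕ} [NeZero (2 * m)] {y : ℤ → ℂ} {i₀ : ℤ} {α : ℤ → ℝ} {bm bp : ℝ}
    (h : StarAt m y i₀ α bm bp) (hper : Per (2 * m) y) :
    MP97284cP.sh (fun i : Fin (2 * m) => nrm m y i₀ i.val) = sh (2 * m) y := by
  rw [← sh_shift hper i₀]
  have hper' : Per (2 * m) (fun k => y (i₀ + k)) := by
    intro k
    show y (i₀ + (k + ((2 * m : ℕ) : ℤ))) = y (i₀ + k)
    rw [← add_assoc]; exact hper _
  rw [← sh_fin hper', MP97284cP.sh_eq_fan, MP97284cP.sh_eq_fan]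
  congr 1
  apply Finset.sum_congr rfl
  intro k hk
  have hk' := Finset.mem_range.1 hk
  have hn : 0 < 2 * m := Nat.pos_of_ne_zero (NeZero.ne _)
  rw [MP97284cP.ext_eq _ 0 (by omega), MP97284cP.ext_eq _ k (by omega),
    MP97284cP.ext_eq _ (k + 1) (by omega), MP97284cP.ext_eq _ 0 (by omega),
    MP97284cP.ext_eq _ k (by omega), MP97284cP.ext_eq _ (k + 1) (by omega)]
  rw [← orient_ori, ← orient_ori]
  unfold nrm
  rw [orient_sim _ _ _ _ _ h.norm]

/-- upper bound for all small simple polygons, equality case -/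
theorem simple_le {n : ℕ} [NeZero n] (hn : 3 ≤ n) {v : Fin n → ℂ} (hv : SmallSimple v) :
    parea v ≤ smallArea n ∧ (parea v = smallArea n → ∃ σ : Equiv.Perm (Fin n),
      MP97284cP.Ccw (v ∘ σ) ∧ MP97284cP.sh (v ∘ σ) = smallArea n) := by
  obtain ⟨w, hw1, hw2, hw3, hw4, hw5, hw6⟩ := exists_max' (n := n) hn
  have hA := smallArea_eq hn hw1 hw3 hw5
  have hvs : MP97284cP.Small v := fun i j => by rw [← dist_eq_norm]; exact hv.small i j
  have h1 := hw5 v hvs
  have h2 : volume (MP97284cP.inside v) ≤ volume (convexHull ℝ (Set.range v)) :=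
    measure_mono (MP97284cP.inside_subset_hull v)
  rw [← hA] at h1
  have hpos : 0 < smallArea n := by rw [hA]; exact hw4
  have hle : parea v ≤ smallArea n := by
    unfold parea
    exact ENNReal.toReal_le_of_le_ofReal hpos.le (h2.trans h1)
  refine ⟨hle, ?_⟩
  intro heq
  have h3 : volume (MP97284cP.inside v) = ENNReal.ofReal (smallArea n) := by
    rw [← heq]
    unfold parea
    rw [ENNReal.ofReal_toReal]
    exact ne_top_of_le_ne_top ENNReal.ofReal_ne_top (h2.trans h1)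
  have h4 : volume (convexHull ℝ (Set.range v)) = ENNReal.ofReal (MP97284cP.sh w) := by
    rw [← hA]
    apply le_antisymm h1
    rw [← h3]
    exact h2
  obtain ⟨σ, hσ⟩ := hw6 v hvs h4
  refine ⟨σ, hσ, ?_⟩
  have h5 := hσ.volume_hull hn
  have h6 : Set.range (v ∘ σ) = Set.range v := σ.surjective.range_comp v
  rw [h6, h4, ← hA] at h5
  have h7 := congrArg ENNReal.toReal h5
  rw [ENNReal.toReal_ofReal hpos.le, ENNReal.toReal_ofReal (MP97284cP.Ccw.sh_nonneg hσ.weak)] at h7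
  exact h7.symm

/-- the complete description of the maximal small `2m`-gons, from the pieces -/
theorem q_final (hMain : S_Main) (H : Inp) (m : ℕ) (hm : 3 ≤ m) [NeZero (2 * m)] :
    ∃ (ρ : ℤ → ℝ) (J : ℝ) (V : ℤ → ℂ) (c : ℝ),
      (Sol (2 * m - 1) ρ J ∧ (∀ ρ' J', Sol (2 * m - 1) ρ' J' → ρ' = ρ ∧ J' = J) ∧
        ∀ k, ρ (-k) = ρ k) ∧
      IsGreatest (areas (2 * m)) (Val (2 * m - 1) ρ J) ∧
      (Val (2 * m - 1) ρ J = Sf (2 * m - 1) ρ J ∧
        ∀ ρ' J', Adm (2 * m - 1) ρ' J' → Sf (2 * m - 1) ρ J ≤ Sf (2 * m - 1) ρ' J' ∧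
          (Sf (2 * m - 1) ρ' J' = Sf (2 * m - 1) ρ J → ρ' = ρ ∧ J' = J)) ∧
      ((∀ k, V (k + 2 * m) = V k) ∧ V 0 = 0 ∧ V m = 1 ∧ (∀ k, V (-k) = conj (V k)) ∧
        (∀ k, ‖V (idx m 0 k) - c‖ ^ 2 = ρ k) ∧
        (∀ k, V (idx m 0 (k + 1)) - V (idx m 0 k) =
          Complex.exp ((wt (2 * m - 1) k * Real.arccos (2 * (ρ k - J)) : ℝ) * Complex.I) *
            (V (idx m 0 (k - 1)) - V (idx m 0 k))) ∧
        (∀ a b : ℤ, 0 ≤ a → a < b → b < 2 * m →
          (‖V a - V b‖ = 1 ↔ (b = a + m ∨ b = a + m + 1 ∨ (a = 0 ∧ b = m - 1)))) ∧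
        (∀ i j k : ℤ, i < j → j < k → k < i + 2 * m → 0 < orient (V i) (V j) (V k))) ∧
      (SmallSimple (fun i : Fin (2 * m) => V i.val) ∧
        parea (fun i : Fin (2 * m) => V i.val) = Val (2 * m - 1) ρ J) ∧
      (∀ v : Fin (2 * m) → ℂ, SmallSimple v → parea v = Val (2 * m - 1) ρ J →
        ∃ (a u : ℂ) (s : ℤ), ‖u‖ = 1 ∧ ((∀ i : Fin (2 * m), v i = a + u * V (s + i.val)) ∨
          (∀ i : Fin (2 * m), v i = a + u * conj (V (s + i.val))))) := by
  obtain ⟨ρ, J, hSol, huniq, hsym, hVal, hSf, hmin⟩ := hMain m hm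
  have hn : 3 ≤ 2 * m := by omega
  obtain ⟨⟨y, hO⟩, hOsh⟩ := H.A9 (2 * m) hn
  obtain ⟨i₀, hstar, hunit, O, hOρ⟩ := k_struct H hm huniq hO
  have hαsym : ∀ k, alpS (2 * m - 1) ρ J (-k) = alpS (2 * m - 1) ρ J k := by
    intro k
    unfold alpS
    rw [wt_neg, hsym]
  obtain ⟨c, hc⟩ := k_centre (by omega) hO.1 hstar hαsym hsym hOρ
  have hccw : MP97284cP.Ccw (fun i : Fin (2 * m) => nrm m y i₀ i.val) :=
    ccw_of_cvx (nrm_cvx hstar hO.2.1)
  have hsimple : SmallSimple (fun i : Fin (2 * m) => nrm m y i₀ i.val) := by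
    refine ⟨MP97284cP.isSimple_of_ccw hccw hn, ?_⟩
    intro i j
    rw [dist_eq_norm]
    exact nrm_small hstar hO.2.2.1 _ _
  have harea : parea (fun i : Fin (2 * m) => nrm m y i₀ i.val) = Val (2 * m - 1) ρ J := by
    unfold parea
    rw [MP97284cP.volume_inside hccw hn, hccw.volume_hull hn,
      ENNReal.toReal_ofReal (MP97284cP.Ccw.sh_nonneg hccw.weak), nrm_sh hstar hO.1, hOsh y hO, hVal]
  refine ⟨ρ, J, nrm m y i₀, c, ⟨hSol, huniq, hsym⟩, ⟨⟨_, hsimple, harea.symm⟩, ?_⟩, ?_, ?_,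
    ⟨hsimple, harea⟩, ?_⟩
  · rintro A ⟨v, hv, rfl⟩
    rw [← hVal]
    exact (simple_le hn hv).1
  · refine ⟨by rw [← hVal]; exact hSf, ?_⟩
    intro ρ' J' hAdm
    obtain ⟨h1, h2⟩ := hmin ρ' J' hAdm
    rw [hSf] at h1 h2
    exact ⟨h1, fun h => h2 h.symm⟩
  · refine ⟨?_, ?_, ?_, ?_, hc, ?_, ?_, ?_⟩
    · intro k
      have := nrm_per hO.1 i₀ k 1
      rw [one_mul] at this
      exact this
    · unfold nrm; simp
    · unfold nrm; exact div_self hstar.ne
    · intro k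
      exact nrm_sym (by omega) hO.1 hstar hαsym k
    · intro k
      rw [nrm_sub, nrm_sub, ← k_idx, ← k_idx, ← k_idx]
      have := hstar.rot k
      rw [this, mul_div_assoc]
      rfl
    · intro a b ha hab hb
      rw [nrm_sub, norm_div, hstar.norm, div_one]
      exact hunit a b ha hab hb
    · intro i j k hij hjk hk
      exact nrm_cvx hstar hO.2.1 i j k hij hjk (by push_cast; exact hk)
  · intro v hv hva
    obtain ⟨σ, hσ1, hσ2⟩ := (simple_le hn hv).2 (by rw [hva, hVal])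
    have hvs : MP97284cP.Small (v ∘ σ) := fun i j => by
      have := hv.small (σ i) (σ j)
      rw [dist_eq_norm] at this
      exact this
    have hO' : Opt (2 * m) (fun k => (v ∘ σ) (fz (2 * m) k)) := by
      refine ⟨per_fz _, cvx_of_ccw hσ1, small_fz hvs, ?_⟩
      intro z hz1 hz2 hz3
      rw [sh_fz, hσ2, ← hOsh y hO]
      exact hO.2.2.2 z hz1 hz2 hz3
    set y' : ℤ → ℂ := fun k => (v ∘ σ) (fz (2 * m) k) with hy'
    obtain ⟨i₁, hstar', _, _, _⟩ := k_struct H hm huniq hO'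
    have hV : ∀ x, y' (i₁ + x) = y' i₁ + (y' (i₁ + m) - y' i₁) * nrm m y i₀ x := by
      intro x
      rw [← nrm_unique (by omega) hO.1 hO'.1 hstar hstar' x]
      unfold nrm
      have := hstar'.ne
      field_simp
      ring
    obtain ⟨s, hs | hs⟩ := q_order hn hv.simple hσ1
    · refine ⟨y' i₁, y' (i₁ + m) - y' i₁, s - i₁, hstar'.norm, Or.inl ?_⟩
      intro i
      rw [hs i, ← hV]
      have e : i₁ + (s - i₁ + (i.val : ℤ)) = s + i.val := by ring
      rw [e]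
    · refine ⟨y' i₁, y' (i₁ + m) - y' i₁, i₁ - s, hstar'.norm, Or.inr ?_⟩
      intro i
      rw [hs i, ← nrm_sym (by omega) hO.1 hstar hαsym, ← hV]
      have e : i₁ + -(i₁ - s + (i.val : ℤ)) = s - i.val := by ring
      rw [e]

end Pool.Agent.Lib.MP_97284c_gt
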