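import Pool.Agent.Lib.MP_97284c_gt.Q.Conv

/-!
# MP_97284c_gt, part Q: a simple polygon with vertices in convex position visits them in cyclic order
-/

namespace Pool.Agent.Lib.MP_97284c_gt

open MeasureTheory

/-- the diagonals of a strictly convex quadrilateral cross -/
theorem q_cross {p q r s : ℂ} (h1 : 0 < orient p q r) (h2 : 0 < orient q r s)
    (h3 : 0 < orient p r s) (h4 : 0 < orient p q s) :
    ∃ x, x ∈ segment ℝ p r ∧ x ∈ segment ℝ q s := by
  have key : ∀ A B C D : ℝ, A = orient p q s → B = orient q r s → C = orient p r s → D = orient p q r →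
      (B : ℂ) * p + A * r = C * q + D * s ∧ A + B = C + D := by
    intro A B C D hA hB hC hD
    constructor
    · apply Complex.ext
      · simp [hA, hB, hC, hD, orient, cr]; ring
      · simp [hA, hB, hC, hD, orient, cr]; ring
    · simp [hA, hB, hC, hD, orient, cr]; ring
  obtain ⟨e1, e2⟩ := key _ _ _ _ rfl rfl rfl rfl
  set A := orient p q s
  set B := orient q r s
  set C := orient p r s
  set D := orient p q r
  have hAB : 0 < A + B := by linarith
  have hABc : ((A : ℂ) + B) ≠ 0 := by exact_mod_cast hAB.ne'
  refine ⟨((B : ℂ) * p + A * r) / (A + B), ?_, ?_⟩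
  · refine ⟨B / (A + B), A / (A + B), by positivity, by positivity, by field_simp; ring, ?_⟩
    simp only [Complex.real_smul]
    push_cast
    field_simp
  · refine ⟨C / (A + B), D / (A + B), by positivity, by positivity, ?_, ?_⟩
    · rw [← add_div, ← e2, div_self hAB.ne']
    · simp only [Complex.real_smul]
      rw [e1]
      push_cast
      field_simp

variable {n : ℕ} [NeZero n]

/-- a simple polygon with vertices in convex position visits them in cyclic order -/
theorem q_order (hn : 3 ≤ n) {v : Fin n → ℂ} (hv : MP97284cP.IsSimplePolygon v)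
    {σ : Equiv.Perm (Fin n)} (hσ : MP97284cP.Ccw (v ∘ σ)) :
    ∃ s : ℤ, (∀ i : Fin n, v i = (v ∘ σ) (fz n (s + i.val))) ∨
      (∀ i : Fin n, v i = (v ∘ σ) (fz n (s - i.val))) := by
  have hnp := npos (n := n)
  have hn3 : (3 : ℤ) ≤ n := by exact_mod_cast hn
  set y : ℤ → ℂ := fun k => (v ∘ σ) (fz n k) with hy
  have hcvx : Cvx n y := cvx_of_ccw hσ
  have hper : Per n y := per_fz _
  let T : ℤ → ℤ := fun j => ((σ.symm (fz n j)).val : ℤ)
  have hT0 : ∀ j, 0 ≤ T j := fun j => by positivity
  have hTn : ∀ j, T j < n := fun j => by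
    have := (σ.symm (fz n j)).isLt
    simp only [T]; exact_mod_cast this
  have hvT : ∀ j, v (fz n j) = y (T j) := by
    intro j
    simp only [hy, T, Function.comp]
    rw [fz_self, Equiv.apply_symm_apply]
  have hTinj : ∀ j k, T j = T k → fz n j = fz n k := by
    intro j k h
    have : σ.symm (fz n j) = σ.symm (fz n k) := by
      apply Fin.ext
      simp only [T] at h
      exact_mod_cast h
    exact σ.symm.injective this
  have hymod : ∀ a b : ℤ, (n : ℤ) ∣ a - b → y a = y b := by
    intro a b hab
    simp only [hy]
    rw [(fz_eq_iff a b).2 hab]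
  -- every edge is an edge of the hull
  have hedge : ∀ i : ℤ, (n : ℤ) ∣ T (i + 1) - T i - 1 ∨ (n : ℤ) ∣ T (i + 1) - T i + 1 := by
    intro i
    set a := T i with ha
    let d : ℤ → ℤ := fun j => (T j - a) % n
    have hd0 : ∀ j, 0 ≤ d j := fun j => Int.emod_nonneg _ hnp.ne'
    have hdn : ∀ j, d j < n := fun j => Int.emod_lt_of_pos _ hnp
    have hdi : d i = 0 := by simp [d, ha]
    have hdv : ∀ j, v (fz n j) = y (a + d j) := by
      intro j
      rw [hvT j]
      apply hymod
      have h1 : (n : ℤ) ∣ (T j - a) - (T j - a) % n := Int.dvd_self_sub_emod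
      have h2 : T j - (a + d j) = (T j - a) - (T j - a) % n := by simp only [d]; ring
      rw [h2]; exact h1
    have hdinj : ∀ j k, d j = d k → fz n j = fz n k := by
      intro j k h
      apply hTinj
      have h1 : (n : ℤ) ∣ (T j - a) - (T k - a) :=
        Int.dvd_of_emod_eq_zero (Int.emod_eq_emod_iff_emod_sub_eq_zero.1 h)
      have h2 : (T j - a) - (T k - a) = T j - T k := by ring
      rw [h2] at h1
      have h3 := hT0 j
      have h4 := hTn j
      have h5 := hT0 k
      have h6 := hTn k
      obtain ⟨c, hc⟩ := h1
      have h7 : c < 1 := by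
        by_contra hcon
        push Not at hcon
        have : (n : ℤ) * 1 ≤ n * c := mul_le_mul_of_nonneg_left hcon hnp.le
        omega
      have h8 : -1 < c := by
        by_contra hcon
        push Not at hcon
        have : (n : ℤ) * c ≤ n * (-1) := mul_le_mul_of_nonneg_left hcon hnp.le
        omega
      have h9 : c = 0 := by omega
      rw [h9] at hc
      omega
    set D := d (i + 1) with hD
    by_contra hcon
    push Not at hcon
    obtain ⟨hc1, hc2⟩ := hcon
    have hD0 : D ≠ 0 := by
      intro h
      have h1 := hdinj (i + 1) i (by rw [hdi, ← hD]; exact h)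
      rw [fz_eq_iff] at h1
      have : (n : ℤ) ∣ 1 := by
        have e : i + 1 - i = 1 := by ring
        rwa [e] at h1
      have := Int.le_of_dvd (by norm_num) this
      omega
    have hDmod : (n : ℤ) ∣ T (i + 1) - a - D := Int.dvd_self_sub_emod
    have hD1 : D ≠ 1 := by
      intro h
      apply hc1
      rw [h] at hDmod; exact hDmod
    have hD2 : D ≠ n - 1 := by
      intro h
      apply hc2
      rw [h] at hDmod
      have : T (i + 1) - a + 1 = (T (i + 1) - a - (n - 1)) + n := by ring
      rw [this]
      exact dvd_add hDmod (dvd_refl _)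
    have hDlo : 2 ≤ D := by have := hd0 (i + 1); omega
    have hDhi : D ≤ n - 2 := by have := hdn (i + 1); omega
    -- no crossing
    have hcr : ∀ j : ℤ, fz n j ≠ fz n i → fz n j ≠ fz n (i + 1) → fz n i ≠ fz n (j + 1) →
        (d j < D ∧ D < d (j + 1) ∨ d (j + 1) < D ∧ D < d j) → 0 < d j → 0 < d (j + 1) → False := by
      intro j h1 h2 h3 h4 h5 h6
      have hdis := hv.nonadj (fz n i) (fz n j) h1 (by rw [← fz_add_one]; exact h2)
        (by rw [← fz_add_one]; exact h3)
      rw [Set.disjoint_iff_inter_eq_empty] at hdis
      have hci : MP97284cP.edge v (fz n i) = segment ℝ (y a) (y (a + D)) := by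
        unfold MP97284cP.edge
        rw [← fz_add_one, hdv i, hdv (i + 1), hdi, add_zero]
      have hcj : MP97284cP.edge v (fz n j) = segment ℝ (y (a + d j)) (y (a + d (j + 1))) := by
        unfold MP97284cP.edge
        rw [← fz_add_one, hdv j, hdv (j + 1)]
      rw [hci, hcj] at hdis
      have b1 := hdn j
      have b2 := hdn (j + 1)
      rcases h4 with ⟨h7, h8⟩ | ⟨h7, h8⟩
      · obtain ⟨x, hx1, hx2⟩ := q_cross (p := y a) (q := y (a + d j)) (r := y (a + D))
          (s := y (a + d (j + 1)))
          (hcvx _ _ _ (by omega) (by omega) (by omega))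
          (hcvx _ _ _ (by omega) (by omega) (by omega))
          (hcvx _ _ _ (by omega) (by omega) (by omega))
          (hcvx _ _ _ (by omega) (by omega) (by omega))
        have : x ∈ (∅ : Set ℂ) := by rw [← hdis]; exact ⟨hx1, hx2⟩
        exact this
      · obtain ⟨x, hx1, hx2⟩ := q_cross (p := y a) (q := y (a + d (j + 1))) (r := y (a + D))
          (s := y (a + d j))
          (hcvx _ _ _ (by omega) (by omega) (by omega))
          (hcvx _ _ _ (by omega) (by omega) (by omega))
          (hcvx _ _ _ (by omega) (by omega) (by omega))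
          (hcvx _ _ _ (by omega) (by omega) (by omega))
        have : x ∈ (∅ : Set ℂ) := by
          rw [← hdis]
          refine ⟨hx1, ?_⟩
          rw [segment_symm]; exact hx2
        exact this
    -- indices away from the edge
    have haway : ∀ t : ℤ, 2 ≤ t → t ≤ n - 1 → fz n (i + t) ≠ fz n i ∧ fz n (i + t) ≠ fz n (i + 1) := by
      intro t h1 h2
      constructor
      · intro h
        rw [fz_eq_iff] at h
        have e : i + t - i = t := by ring
        rw [e] at h
        have := Int.le_of_dvd (by omega) h
        omega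
      · intro h
        rw [fz_eq_iff] at h
        have e : i + t - (i + 1) = t - 1 := by ring
        rw [e] at h
        have := Int.le_of_dvd (by omega) h
        omega
    have hne : ∀ t : ℤ, 2 ≤ t → t ≤ n - 1 → d (i + t) ≠ D ∧ 0 < d (i + t) := by
      intro t h1 h2
      obtain ⟨h3, h4⟩ := haway t h1 h2
      constructor
      · intro h
        exact h4 (hdinj _ _ h)
      · have := hd0 (i + t)
        have h5 : d (i + t) ≠ 0 := by
          intro h
          apply h3
          apply hdinj
          rw [h, hdi]
        omega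
    have hstep : ∀ t : ℤ, 2 ≤ t → t + 1 ≤ n - 1 → (d (i + t) < D ↔ d (i + (t + 1)) < D) := by
      intro t h1 h2
      obtain ⟨a1, a2⟩ := haway t h1 (by omega)
      obtain ⟨a3, a4⟩ := haway (t + 1) (by omega) h2
      obtain ⟨b1, b2⟩ := hne t h1 (by omega)
      obtain ⟨b3, b4⟩ := hne (t + 1) (by omega) h2
      have e : i + (t + 1) = i + t + 1 := by ring
      rw [e] at a3 a4 b3 b4 ⊢
      by_contra hcon
      apply hcr (i + t) a1 a2 (Ne.symm a3) ?_ b2 b4
      by_cases c1 : d (i + t) < D
      · left
        refine ⟨c1, ?_⟩
        have : ¬ d (i + t + 1) < D := fun h => hcon ⟨fun _ => h, fun _ => c1⟩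
        omega
      · right
        have c2 : d (i + t + 1) < D := by
          by_contra h
          exact hcon ⟨fun h' => absurd h' c1, fun h' => absurd h' h⟩
        exact ⟨c2, by omega⟩
    have hall : ∀ k : ℕ, (2 : ℤ) + k ≤ n - 1 → (d (i + 2) < D ↔ d (i + (2 + k)) < D) := by
      intro k
      induction k with
      | zero => intro _; simp
      | succ k ih =>
        intro hk
        push_cast at hk
        rw [ih (by omega), hstep (2 + k) (by omega) (by omega)]
        have e : (2 : ℤ) + k + 1 = 2 + ((k + 1 : ℕ) : ℤ) := by push_cast; ring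
        rw [e]
    -- a vertex with given distance
    have hex : ∀ c : ℤ, 0 < c → c < n → c ≠ D → ∃ k : ℕ, (2 : ℤ) + k ≤ n - 1 ∧ d (i + (2 + k)) = c := by
      intro c hc0 hcn hcD
      set r : Fin n := fz n (a + c) with hr
      set t : ℤ := ((σ r).val - i) % n with ht
      have ht0 : 0 ≤ t := Int.emod_nonneg _ hnp.ne'
      have htn : t < n := Int.emod_lt_of_pos _ hnp
      have hfz : fz n (i + t) = σ r := by
        rw [← fz_self (σ r), fz_eq_iff]
        have h1 : (n : ℤ) ∣ ((σ r).val - i) - ((σ r).val - i) % n := Int.dvd_self_sub_emod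
        have e : i + t - ((σ r).val : ℤ) = -(((σ r).val - i) - ((σ r).val - i) % n) := by
          rw [ht]; ring
        rw [e]
        exact (dvd_neg).2 h1
      have hTt : T (i + t) = (a + c) % n := by
        simp only [T]
        rw [hfz, Equiv.symm_apply_apply, hr, fz_val]
      have hdt : d (i + t) = c := by
        simp only [d]
        rw [hTt, Int.emod_sub_emod, add_sub_cancel_left, Int.emod_eq_of_lt hc0.le hcn]
      have ht1 : t ≠ 0 := by
        intro h
        rw [h, add_zero, hdi] at hdt
        omega
      have ht2 : t ≠ 1 := by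
        intro h
        rw [h, ← hD] at hdt
        exact hcD hdt.symm
      refine ⟨(t - 2).toNat, ?_, ?_⟩
      · rw [Int.toNat_of_nonneg (by omega)]; omega
      · rw [Int.toNat_of_nonneg (by omega)]
        have e : i + (2 + (t - 2)) = i + t := by ring
        rw [e]; exact hdt
    obtain ⟨k1, hk1, hk1'⟩ := hex 1 (by norm_num) (by omega) (Ne.symm hD1)
    obtain ⟨k2, hk2, hk2'⟩ := hex (D + 1) (by omega) (by omega) (by omega)
    have c1 := (hall k1 hk1).2 (by rw [hk1']; omega)
    have c2 := (hall k2 hk2).1 c1
    rw [hk2'] at c2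
    omega
  -- the direction is constant
  have hconst : ∀ i : ℤ, ((n : ℤ) ∣ T (i + 1) - T i - 1 ↔ (n : ℤ) ∣ T (i + 1 + 1) - T (i + 1) - 1) := by
    intro i
    have hback : ¬ (n : ℤ) ∣ T (i + 1 + 1) - T i := by
      intro h
      have h1 : fz n (i + 1 + 1) = fz n i := by
        apply hTinj
        have h3 := hT0 (i + 1 + 1)
        have h4 := hTn (i + 1 + 1)
        have h5 := hT0 i
        have h6 := hTn i
        obtain ⟨c, hc⟩ := h
        have h7 : c < 1 := by
          by_contra hcon
          push Not at hcon
          have : (n : ℤ) * 1 ≤ n * c := mul_le_mul_of_nonneg_left hcon hnp.le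
          omega
        have h8 : -1 < c := by
          by_contra hcon
          push Not at hcon
          have : (n : ℤ) * c ≤ n * (-1) := mul_le_mul_of_nonneg_left hcon hnp.le
          omega
        have h9 : c = 0 := by omega
        rw [h9] at hc
        omega
      rw [fz_eq_iff] at h1
      have e : i + 1 + 1 - i = 2 := by ring
      rw [e] at h1
      have := Int.le_of_dvd (by norm_num) h1
      omega
    constructor
    · intro h
      rcases hedge (i + 1) with h' | h'
      · exact h'
      · exfalso
        apply hback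
        have e : T (i + 1 + 1) - T i = (T (i + 1 + 1) - T (i + 1) + 1) + (T (i + 1) - T i - 1) := by ring
        rw [e]; exact dvd_add h' h
    · intro h
      rcases hedge i with h' | h'
      · exact h'
      · exfalso
        apply hback
        have e : T (i + 1 + 1) - T i = (T (i + 1 + 1) - T (i + 1) - 1) + (T (i + 1) - T i + 1) := by ring
        rw [e]; exact dvd_add h h'
  refine ⟨T 0, ?_⟩
  by_cases h0 : (n : ℤ) ∣ T (0 + 1) - T 0 - 1
  · left
    have hall : ∀ k : ℕ, (n : ℤ) ∣ T ((k : ℤ) + 1) - T k - 1 := by
      intro k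
      induction k with
      | zero => exact h0
      | succ k ih =>
        have := (hconst k).1 ih
        push_cast
        exact this
    have hsum : ∀ k : ℕ, (n : ℤ) ∣ T k - (T 0 + k) := by
      intro k
      induction k with
      | zero => simp
      | succ k ih =>
        have e : T ((k + 1 : ℕ) : ℤ) - (T 0 + ((k + 1 : ℕ) : ℤ)) =
            (T k - (T 0 + k)) + (T ((k : ℤ) + 1) - T k - 1) := by push_cast; ring
        rw [e]; exact dvd_add ih (hall k)
    intro i
    have h1 := hvT i.val
    rw [fz_self] at h1
    rw [h1]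
    exact hymod _ _ (hsum i.val)
  · right
    have hall : ∀ k : ℕ, (n : ℤ) ∣ T ((k : ℤ) + 1) - T k + 1 := by
      have hnot : ∀ k : ℕ, ¬ (n : ℤ) ∣ T ((k : ℤ) + 1) - T k - 1 := by
        intro k
        induction k with
        | zero => exact h0
        | succ k ih =>
          intro h
          push_cast at h
          exact ih ((hconst k).2 h)
      intro k
      rcases hedge k with h | h
      · exact absurd h (hnot k)
      · exact h
    have hsum : ∀ k : ℕ, (n : ℤ) ∣ T k - (T 0 - k) := by
      intro k
      induction k with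
      | zero => simp
      | succ k ih =>
        have e : T ((k + 1 : ℕ) : ℤ) - (T 0 - ((k + 1 : ℕ) : ℤ)) =
            (T k - (T 0 - k)) + (T ((k : ℤ) + 1) - T k + 1) := by push_cast; ring
        rw [e]; exact dvd_add ih (hall k)
    intro i
    have h1 := hvT i.val
    rw [fz_self] at h1
    rw [h1]
    exact hymod _ _ (hsum i.val)

end Pool.Agent.Lib.MP_97284c_gt
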